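import Pool.Agent.P.MP_f57657_co.RS.All

/-! With high probability no switching that fixes one vertex gives a cospectral mate. -/

open Filter Topology Pool.Agent.P.MP_f57657_co

namespace Pool.Agent.Results.MP_f57657_co.AllButOneVertex

open Classical in
theorem result (p : ℕ → unitInterval)
    (hp : ∀ᶠ n : ℕ in atTop, Real.log n ^ 8 ≤ (n : ℝ) * (p n : ℝ) ∧ (p n : ℝ) ≤ 1 / 2) :
    Tendsto (fun n : ℕ => (SimpleGraph.binomialRandom (Fin n) (p n)).real
      {G | G.Connected ∧ (∀ v, 2 ≤ G.degree v) ∧ ∀ H : SimpleGraph (Fin n),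
        IsSwitching G H ((n : ℝ) - 1) → Nonempty (H ≃g G)}) atTop (𝓝 1) :=
  RS.final_of RS.aMain RS.rPar p hp

end Pool.Agent.Results.MP_f57657_co.AllButOneVertex
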