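import Pool.Agent.P.MP_f57657_co.W.Top

/-! With high probability no orthogonal matrix with linearly many coarse columns gives a
cospectral mate of the 2-core. -/

open Filter Topology Pool.Agent.P.MP_f57657_co

namespace Pool.Agent.Results.MP_f57657_co.CoarseColumns

theorem result (ε θ : ℝ) (hε : 0 < ε) (hθ : 0 < θ) : ∃ C : ℝ, 0 < C ∧ ∀ p : ℕ → unitInterval,
    (∀ᶠ n : ℕ in atTop, C ≤ (n : ℝ) * (p n : ℝ) ∧ (p n : ℝ) ≤ 1 / 2) →
    Tendsto (fun n : ℕ => (SimpleGraph.binomialRandom (Fin n) (p n)).real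
      {G | ∀ (c : G.ConnectedComponent) (H : SimpleGraph (core2 G c.supp)),
        IsCoarse (G.induce (core2 G c.supp)) H θ ((1 - ε) * (n : ℝ)) →
          Nonempty (H ≃g G.induce (core2 G c.supp))}) atTop (𝓝 1) :=
  main_full hε hθ

end Pool.Agent.Results.MP_f57657_co.CoarseColumns
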