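import Pool.Agent.P.MP_f57657_co.SZ.All

/-! At every edge density the number of connected graphs of minimum degree two that are determined
by their adjacency spectrum has the same logarithmic order as the number of all graphs. -/

namespace Pool.Agent.Results.MP_f57657_co.DeterminedCount

open Classical in
theorem result : ∃ c : ℝ, 0 < c ∧ ∃ d0 n0 : ℕ, ∀ n ≥ n0, ∀ d ≥ d0, d ≤ n →
    ∃ S : Finset (SimpleGraph (Fin n)),
      (∀ G ∈ S, G.Connected ∧ (∀ v, 2 ≤ G.degree v) ∧ G.edgeSet.ncard ≤ d * n ∧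
        ∀ (m : ℕ) (H : SimpleGraph (Fin m)),
          (H.adjMatrix ℝ).charpoly = (G.adjMatrix ℝ).charpoly → Nonempty (H ≃g G)) ∧
      (∀ G ∈ S, ∀ G' ∈ S, Nonempty (G ≃g G') → G = G') ∧
      Real.exp (c * d * n * Real.log (2 * (n : ℝ) / d)) ≤ S.card := by
  obtain ⟨c, hc, d0, n0, h⟩ := Pool.Agent.P.MP_f57657_co.SZ.main_all
  refine ⟨c, hc, d0, n0, fun n hn d hd hdn => ?_⟩
  obtain ⟨S, hS, hcard⟩ := h n hn d hd hdn
  exact ⟨S, hS.1, hS.2, hcard⟩

end Pool.Agent.Results.MP_f57657_co.DeterminedCount
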