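import Pool.Agent.P.MP_f57657_co.DG.All

/-! With high probability `G(n, 1/2)` is connected, has minimum degree at least two and is
determined by its adjacency spectrum together with the adjacency spectrum of its complement. -/

open Filter Topology

namespace Pool.Agent.Results.MP_f57657_co.GeneralizedSpectrum

open Classical in
theorem result (p : unitInterval) (hp : (p : ℝ) = 1 / 2) :
    Tendsto (fun n : ℕ => (SimpleGraph.binomialRandom (Fin n) p).real
      {G | G.Connected ∧ (∀ v, 2 ≤ G.degree v) ∧ ∀ (m : ℕ) (H : SimpleGraph (Fin m)),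
        (H.adjMatrix ℝ).charpoly = (G.adjMatrix ℝ).charpoly →
        (Hᶜ.adjMatrix ℝ).charpoly = (Gᶜ.adjMatrix ℝ).charpoly → Nonempty (H ≃g G)})
      atTop (𝓝 1) :=
  Pool.Agent.P.MP_f57657_co.DG.final_of Pool.Agent.P.MP_f57657_co.DG.main_all p hp

end Pool.Agent.Results.MP_f57657_co.GeneralizedSpectrum
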